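import Pool.Agent.Y762.GA.Stm

/-!
# Project GA: the convergence half and the smallness of the sets `U`
-/

set_option autoImplicit false

open MeasureTheory Set Metric
open Pool.Agent.H639R3.G Pool.Agent.Y762.GA

namespace Pool.Agent.Y371.GA

theorem t_CONV (hB : S_BAD) : S_CONV := by
  intro d m hd hm A c hcr ψ hψ hsum
  have hc0 : 0 < c := hcr.1
  have hcond := (summable_condensed_iff' (n := d + m) (by omega) hψ).1 hsum
  -- reduction to balls
  have hball : ∀ R : ℕ, volume {x : Fin d → ℝ | x ∈ closedBall (0 : Fin d → ℝ) ((R : ℝ) + 1) ∧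
      point A x ∈ W ψ} = 0 := by
    intro R
    set ρ : ℝ := (R : ℝ) + 1 with hρ
    have hρ0 : 0 < ρ := by positivity
    obtain ⟨C, t0, hC, ht0⟩ := hB d m hd A c hcr (0 : Fin d → ℝ) ρ (CA A) hρ0 (CA_pos A)
    have hlim := hcond.tendsto_atTop_zero
    have hev : ∀ᶠ t : ℕ in Filter.atTop, (2 : ℝ) ^ (t * (d + m)) * ψ (2 ^ t)
        < c / 2 / 2 ^ (d + m) := hlim.eventually_lt_const (by positivity)
    obtain ⟨t1, ht1⟩ := Filter.eventually_atTop.1 hev
    set T := max t0 t1 with hT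
    set E : ℕ → Set (Fin d → ℝ) := fun t => Bad A 0 ρ (t + T + 1) (CA A * 2 ^ (t + T + 1))
      (ψ (2 ^ (t + T))) with hE
    have hmeas : ∀ t, volume (E t) ≤ ENNReal.ofReal (C *
        2 ^ (d + m) * (2 ^ ((t + T) * (d + m)) * ψ (2 ^ (t + T)))) := by
      intro t
      have hpos := hψ.1 (2 ^ (t + T)) Nat.one_le_two_pow
      have h1 := ht1 (t + T) (by omega)
      have e : (2 : ℝ) ^ ((t + T + 1) * (d + m)) = 2 ^ ((t + T) * (d + m)) * 2 ^ (d + m) := by
        rw [← pow_add]; congr 1; ring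
      have h2 := ht0 (t + T + 1) (by omega) (ψ (2 ^ (t + T))) hpos.le (by
        rw [e, le_div_iff₀ (by positivity)]
        rw [lt_div_iff₀ (by positivity)] at h1
        nlinarith)
      refine h2.trans (ENNReal.ofReal_le_ofReal (le_of_eq ?_))
      rw [e]; ring
    have hfin : ∑' t, volume (E t) ≠ ⊤ := by
      have hs : Summable fun t : ℕ => C *
        2 ^ (d + m) * (2 ^ ((t + T) * (d + m)) * ψ (2 ^ (t + T))) :=
        ((summable_nat_add_iff T).2 hcond).mul_left _
      have h1 := ENNReal.tsum_le_tsum hmeas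
      refine ne_top_of_le_ne_top ?_ h1
      exact hs.tsum_ofReal_ne_top
    have hbc := measure_setOfPred_frequently_eq_zero hfin
    refine measure_mono_null ?_ hbc
    rintro x ⟨hx, hW⟩
    rw [mem_ofPred_eq, Filter.frequently_atTop]
    intro N
    -- some z of large norm
    have hfinite : {z : Fin (d + m) → ℤ | supNorm z < 2 ^ (N + T)}.Finite := by
      apply (box (d + m) (2 ^ (N + T))).finite_toSet.subset
      intro z hz
      exact mem_box.2 (supNorm_le_iff.1 (le_of_lt hz))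
    obtain ⟨z, hz, hzN⟩ : ∃ z, z ∈ {q : Fin (d + m) → ℤ | q ≠ 0 ∧
        distInt (∑ i, (q i : ℝ) * point A x i) < ψ (supNorm q)} ∧
        z ∉ {z : Fin (d + m) → ℤ | supNorm z < 2 ^ (N + T)} := by
      have := Set.Infinite.sdiff hW hfinite
      obtain ⟨z, hz⟩ := this.nonempty
      exact ⟨z, hz.1, hz.2⟩
    obtain ⟨hz0, hzlt⟩ := hz
    have hzN' : 2 ^ (N + T) ≤ supNorm z := not_lt.1 hzN
    set s := Nat.log 2 (supNorm z) with hs
    have hsup0 : supNorm z ≠ 0 := (supNorm_pos hz0).ne'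
    have hs1 : 2 ^ s ≤ supNorm z := Nat.pow_log_le_self 2 hsup0
    have hs2 : supNorm z < 2 ^ (s + 1) := Nat.lt_pow_succ_log_self (by norm_num) _
    have hsN : N + T ≤ s := by
      rw [hs]; exact Nat.le_log_of_pow_le (by norm_num) hzN'
    refine ⟨s - T, by omega, ?_⟩
    have hsT : s - T + T = s := by omega
    show x ∈ E (s - T)
    simp only [hE, hsT]
    rw [distInt_lt_iff] at hzlt
    obtain ⟨p, hp⟩ := hzlt
    rw [sum_point] at hp
    have hzle : ∀ i, |z i| ≤ ((2 ^ (s + 1) : ℕ) : ℤ) := supNorm_le_iff.1 hs2.le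
    refine ⟨hx, _, _, p, ?_, ?_, ?_, lt_of_lt_of_le hp (hψ.2 _ _ Nat.one_le_two_pow hs1)⟩
    · rintro ⟨e1, e2⟩
      apply hz0
      ext i
      refine Fin.addCases (fun i => ?_) (fun j => ?_) i
      · exact congrFun e1 i
      · exact congrFun e2 j
    · intro j; simpa using hzle (Fin.natAdd d j)
    · apply norm_bvec_le A (by positivity)
      · intro i
        have := hzle (Fin.castAdd m i)
        rw [← Int.cast_abs]; exact_mod_cast this
      · intro j
        have := hzle (Fin.natAdd d j)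
        rw [← Int.cast_abs]; exact_mod_cast this
  have hcov : {x : Fin d → ℝ | point A x ∈ W ψ} ⊆ ⋃ R : ℕ, {x : Fin d → ℝ |
      x ∈ closedBall (0 : Fin d → ℝ) ((R : ℝ) + 1) ∧ point A x ∈ W ψ} := by
    intro x hx
    obtain ⟨R, hR⟩ := exists_nat_ge ‖x‖
    refine mem_iUnion.2 ⟨R, ?_, hx⟩
    rw [mem_closedBall, dist_zero_right]; linarith
  exact measure_mono_null hcov (measure_iUnion_null hball)

theorem t_UB (hB : S_BAD) : S_UB := by
  intro d m hd A c hcr x0 ρ σ hρ hσ
  have hc0 : 0 < c := hcr.1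
  obtain ⟨C, t0, hC, h⟩ := hB d m hd A c hcr x0 ρ (CA A) hρ (CA_pos A)
  obtain ⟨k, hk⟩ : ∃ k : ℕ, (1 / 2 : ℝ) ^ k < min (c / 2) (σ / C) :=
    exists_pow_lt_of_lt_one (lt_min (by positivity) (by positivity)) (by norm_num)
  have hk1 : (1 / 2 : ℝ) ^ k ≤ c / 2 := hk.le.trans (min_le_left _ _)
  have hk2 : (1 / 2 : ℝ) ^ k ≤ σ / C := hk.le.trans (min_le_right _ _)
  have hk3 : (1 / 2 : ℝ) ^ k = 1 / 2 ^ k := by rw [one_div_pow]
  rw [hk3] at hk1 hk2
  refine ⟨k, t0 + k, fun t ht => ?_⟩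
  obtain ⟨s, rfl⟩ : ∃ s, t = s + k := ⟨t - k, by omega⟩
  have e : (2 : ℝ) ^ ((s + k) * (d + m) + k) = 2 ^ (s * (d + m)) * 2 ^ (k * (d + m)) * 2 ^ k := by
    rw [← pow_add, ← pow_add]; congr 1; ring
  have hge : (1 : ℝ) ≤ 2 ^ (k * (d + m)) := one_le_pow₀ (by norm_num)
  have hb : (1 : ℝ) / 2 ^ ((s + k) * (d + m) + k) ≤ 1 / 2 ^ k / 2 ^ (s * (d + m)) := by
    rw [e, div_div]
    apply one_div_le_one_div_of_le (by positivity)
    have h1 : (0 : ℝ) < 2 ^ k * 2 ^ (s * (d + m)) := by positivity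
    nlinarith
  have h1 := h s (by omega) (1 / 2 ^ ((s + k) * (d + m) + k)) (by positivity)
    (hb.trans (div_le_div_of_nonneg_right hk1 (by positivity)))
  refine (measure_mono ?_).trans (h1.trans (ENNReal.ofReal_le_ofReal ?_))
  · rintro x ⟨⟨z, p, hz0, hz, hp⟩, hx⟩
    have hzle : ∀ i, |z i| ≤ 2 ^ s := by
      intro i
      have h2 := hz i
      rw [pow_add] at h2
      exact le_of_mul_le_mul_right h2 (by positivity)
    rw [sum_point] at hp
    refine ⟨hx, _, _, p, ?_, ?_, ?_, hp⟩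
    · rintro ⟨e1, e2⟩
      apply hz0
      ext i
      refine Fin.addCases (fun i => ?_) (fun j => ?_) i
      · exact congrFun e1 i
      · exact congrFun e2 j
    · intro j; simpa using hzle (Fin.natAdd d j)
    · apply norm_bvec_le A (by positivity)
      · intro i
        have := hzle (Fin.castAdd m i)
        rw [← Int.cast_abs]; exact_mod_cast this
      · intro j
        have := hzle (Fin.natAdd d j)
        rw [← Int.cast_abs]; exact_mod_cast this
  · calc C * (2 ^ (s * (d + m)) * (1 / 2 ^ ((s + k) * (d + m) + k)))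
        ≤ C * (2 ^ (s * (d + m)) * (1 / 2 ^ k / 2 ^ (s * (d + m)))) := by gcongr
      _ = C * (1 / 2 ^ k) := by field_simp
      _ ≤ C * (σ / C) := by gcongr
      _ = σ := by field_simp

end Pool.Agent.Y371.GA
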