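import Pool.Agent.Y762.GA.Stm

/-!
# Project GA: weak type bound for the maximal function and the weighted Fatou argument
-/

set_option autoImplicit false

open Set Filter Topology MeasureTheory Metric
open scoped ENNReal

namespace Pool.Agent.Y371.GA

theorem fat_core {X : Type*} [MeasurableSpace X] (μ : Measure X) (B : Set X)
    (hB : MeasurableSet B) (hBf : μ B < ⊤) (M : ℕ → Set X) (hM : ∀ t, MeasurableSet (M t))
    (ω : ℕ → ℝ) (hω : ∀ t, 0 ≤ ω t) (hns : ¬ Summable ω) (t0 : ℕ) (σ : ℝ≥0∞)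
    (hσ : ∀ t ≥ t0, μ (M t) ≤ σ) :
    μ {x | x ∈ B ∧ ∑' t, (M t)ᶜ.indicator (fun _ => ENNReal.ofReal (ω t)) x < ⊤} ≤ σ := by
  have hsum : ∑' t, ENNReal.ofReal (ω (t + t0)) = ⊤ := by
    by_contra hne
    have h1 := ENNReal.summable_toReal hne
    have h2 : (fun t => (ENNReal.ofReal (ω (t + t0))).toReal) = fun t => ω (t + t0) := by
      funext t
      exact ENNReal.toReal_ofReal (hω _)
    rw [h2] at h1
    exact hns ((summable_nat_add_iff t0).mp h1)
  set g : X → ℝ≥0∞ := fun x => ∑' t, (M t)ᶜ.indicator (fun _ => ENNReal.ofReal (ω t)) x with hg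
  have hgt : ∀ t, Measurable ((M t)ᶜ.indicator (fun _ : X => ENNReal.ofReal (ω t))) := fun t =>
    measurable_const.indicator (hM t).compl
  have hgm : Measurable g := Measurable.tsum hgt
  have hN : ∀ j : ℕ, MeasurableSet {x | x ∈ B ∧ g x ≤ j} := fun j =>
    hB.inter (measurableSet_le hgm measurable_const)
  have hU : {x | x ∈ B ∧ g x < ⊤} = ⋃ j : ℕ, {x | x ∈ B ∧ g x ≤ j} := by
    ext x
    simp only [mem_ofPred_eq, mem_iUnion]
    constructor
    · rintro ⟨hx, h⟩
      obtain ⟨j, hj⟩ := ENNReal.exists_nat_gt h.ne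
      exact ⟨j, hx, hj.le⟩
    · rintro ⟨j, hx, h⟩
      exact ⟨hx, h.trans_lt (ENNReal.natCast_lt_top j)⟩
  have hmono : Monotone fun j : ℕ => {x | x ∈ B ∧ g x ≤ j} := by
    intro i j hij x hx
    exact ⟨hx.1, hx.2.trans (by exact_mod_cast hij)⟩
  have hcore : ∀ j : ℕ, μ {x | x ∈ B ∧ g x ≤ j} ≤ σ := by
    intro j
    by_contra hlt
    push Not at hlt
    set N : Set X := {x | x ∈ B ∧ g x ≤ j} with hNd
    have hNB : μ N ≤ μ B := measure_mono fun x hx => hx.1
    have h1 : ∫⁻ x in N, g x ∂μ ≤ j * μ B := by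
      calc ∫⁻ x in N, g x ∂μ ≤ ∫⁻ x in N, (j : ℝ≥0∞) ∂μ :=
            setLIntegral_mono' (hN j) fun x hx => hx.2
        _ = j * μ N := by rw [setLIntegral_const]
        _ ≤ j * μ B := by gcongr
    have h2 : ∫⁻ x in N, g x ∂μ = ∑' t, ENNReal.ofReal (ω t) * μ (N \ M t) := by
      rw [hg, lintegral_tsum fun t => (hgt t).aemeasurable]
      congr 1
      funext t
      rw [lintegral_indicator (hM t).compl, setLIntegral_const, Measure.restrict_apply (hM t).compl]
      congr 2
      ext x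
      simp only [mem_inter_iff, mem_compl_iff, Set.mem_sdiff]
      tauto
    have hδ : μ N - σ ≠ 0 := (tsub_pos_of_lt hlt).ne'
    have h3 : (⊤ : ℝ≥0∞) ≤ ∑' t, ENNReal.ofReal (ω t) * μ (N \ M t) := by
      calc (⊤ : ℝ≥0∞) = ⊤ * (μ N - σ) := (ENNReal.top_mul hδ).symm
        _ = ∑' t, ENNReal.ofReal (ω (t + t0)) * (μ N - σ) := by
            rw [ENNReal.tsum_mul_right, hsum]
        _ ≤ ∑' t, ENNReal.ofReal (ω (t + t0)) * μ (N \ M (t + t0)) := by
            refine ENNReal.tsum_le_tsum fun t => ?_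
            gcongr
            calc μ N - σ ≤ μ N - μ (M (t + t0)) := tsub_le_tsub_left (hσ _ (by omega)) _
              _ ≤ μ (N \ M (t + t0)) := le_measure_sdiff
        _ ≤ ∑' t, ENNReal.ofReal (ω t) * μ (N \ M t) :=
            ENNReal.tsum_comp_le_tsum_of_injective (f := fun t => t + t0)
              (fun a b h => by simpa using h) (fun t => ENNReal.ofReal (ω t) * μ (N \ M t))
    rw [← h2] at h3
    have h4 : (j : ℝ≥0∞) * μ B < ⊤ := ENNReal.mul_lt_top (ENNReal.natCast_lt_top j) hBf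
    exact absurd (h3.trans h1) (not_le.mpr h4)
  rw [hU, hmono.measure_iUnion]
  exact iSup_le hcore

theorem max_core (d : ℕ) (V M : Set (Fin d → ℝ)) (ρ : (Fin d → ℝ) → ℝ)
    (h0 : ∀ x ∈ M, 0 < ρ x) (h1 : ∀ x ∈ M, ρ x ≤ 1)
    (h2 : ∀ x ∈ M, volume (closedBall x (ρ x)) ≤ 2 * volume (V ∩ closedBall x (ρ x))) :
    volume M ≤ 2 * 5 ^ d * volume V := by
  obtain ⟨u, huM, hud, huc⟩ := Vitali.exists_disjoint_subfamily_covering_enlargement_closedBall
    M (fun x => x) ρ 1 h1 5 (by norm_num)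
  have hcount : u.Countable := by
    refine hud.countable_of_nonempty_interior fun x hx => ?_
    exact ⟨x, ball_subset_interior_closedBall (mem_ball_self (h0 x (huM hx)))⟩
  have hvol : ∀ x : Fin d → ℝ, ∀ r : ℝ, 0 ≤ r → volume (closedBall x (5 * r)) =
      5 ^ d * volume (closedBall x r) := by
    intro x r hr
    rw [Real.volume_pi_closedBall x (by positivity), Real.volume_pi_closedBall x hr]
    rw [show (2 * (5 * r)) = 5 * (2 * r) by ring, mul_pow, ENNReal.ofReal_mul (by positivity)]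
    congr 1
    rw [ENNReal.ofReal_pow (by norm_num), Fintype.card_fin]
    norm_num
  calc volume M ≤ volume (⋃ x ∈ u, closedBall x (5 * ρ x)) := by
        refine measure_mono fun x hx => ?_
        obtain ⟨b, hb, hsub⟩ := huc x hx
        exact mem_biUnion hb (hsub (mem_closedBall_self (h0 x hx).le))
    _ ≤ ∑' x : u, volume (closedBall (x : Fin d → ℝ) (5 * ρ x)) :=
        measure_biUnion_le volume hcount _
    _ ≤ ∑' x : u, 2 * 5 ^ d * (volume.restrict V) (closedBall (x : Fin d → ℝ) (ρ x)) := by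
        refine ENNReal.tsum_le_tsum fun x => ?_
        rw [hvol _ _ (h0 _ (huM x.2)).le, Measure.restrict_apply measurableSet_closedBall,
          mul_comm (2 : ℝ≥0∞), mul_assoc, inter_comm]
        gcongr
        exact h2 _ (huM x.2)
    _ = 2 * 5 ^ d * ∑' x : u, (volume.restrict V) (closedBall (x : Fin d → ℝ) (ρ x)) :=
        ENNReal.tsum_mul_left
    _ = 2 * 5 ^ d * (volume.restrict V) (⋃ x ∈ u, closedBall x (ρ x)) := by
        rw [measure_biUnion hcount hud fun _ _ => measurableSet_closedBall]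
    _ ≤ 2 * 5 ^ d * volume V := by
        refine mul_le_mul' le_rfl ?_
        calc (volume.restrict V) (⋃ x ∈ u, closedBall x (ρ x)) ≤ (volume.restrict V) univ :=
              measure_mono (subset_univ _)
          _ = volume V := by rw [Measure.restrict_apply_univ]

theorem t_MAX : Pool.Agent.Y762.GA.S_MAX := by
  intro d V _ _
  classical
  set M : Set (Fin d → ℝ) := {x : Fin d → ℝ | ∃ ρ : ℝ, 0 < ρ ∧ ρ ≤ 1 ∧
    volume (closedBall x ρ) < 2 * volume (V ∩ closedBall x ρ)} with hM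
  have hch : ∀ x : Fin d → ℝ, ∃ r : ℝ, x ∈ M → 0 < r ∧ r ≤ 1 ∧
      volume (closedBall x r) < 2 * volume (V ∩ closedBall x r) := by
    intro x
    by_cases hx : x ∈ M
    · obtain ⟨r, hr⟩ := hx
      exact ⟨r, fun _ => hr⟩
    · exact ⟨0, fun h => absurd h hx⟩
  choose ρ hρ using hch
  exact max_core d V M ρ (fun x hx => (hρ x hx).1) (fun x hx => (hρ x hx).2.1)
    fun x hx => (hρ x hx).2.2.le

theorem t_FAT : Pool.Agent.Y762.GA.S_FAT := by
  intro X _ μ B hB hBf M hM ω hω hns σ t0 _ hσM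
  refine le_trans (measure_mono ?_) (fat_core μ B hB hBf.lt_top M hM ω hω hns t0 _ hσM)
  rintro x ⟨hx, hs⟩
  refine ⟨hx, ?_⟩
  have h1 : ∀ t, (M t)ᶜ.indicator (fun _ => ENNReal.ofReal (ω t)) x =
      ENNReal.ofReal ({t | x ∉ M t}.indicator ω t) := by
    intro t
    by_cases ht : x ∈ M t
    · rw [indicator_of_notMem (by simpa using ht), indicator_of_notMem (by simpa using ht),
        ENNReal.ofReal_zero]
    · rw [indicator_of_mem (by simpa using ht), indicator_of_mem (by simpa using ht)]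
  simp_rw [h1]
  exact hs.tsum_ofReal_lt_top

end Pool.Agent.Y371.GA
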